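import Mathlib

/-!
# Forests of left-right pairs: there is never a rootless component

Let `K` be a subfield of the complex numbers which is not contained in the real numbers, and let
`(L, R)` be any left-right pair of matrices in `SL₂(ℕ₀)`.  Every component of the forest `F(L, R)`
on the part of `K` in the open first quadrant contains an orphan.
-/

set_option autoImplicit false

namespace Pool.Agent.Results.MP_b00f03_nt.NoRootless

/-- `2 × 2` matrices with nonnegative integer entries -/
abbrev Mat : Type := Matrix (Fin 2) (Fin 2) ℕ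

/-- `SL₂(ℕ₀)`: nonnegative integer entries and determinant `1` -/
def SL2N0 : Set Mat := {T | T 0 0 * T 1 1 = T 0 1 * T 1 0 + 1}

/-- the action by linear fractional transformations -/
noncomputable def act (T : Mat) (z : ℂ) : ℂ :=
  ((T 0 0 : ℂ) * z + (T 0 1 : ℂ)) / ((T 1 0 : ℂ) * z + (T 1 1 : ℂ))

/-- the elements `x + y i` of `K` with `x > 0` and `y > 0` -/
def D0 (K : Subfield ℂ) : Set ℂ := {z | z ∈ K ∧ 0 < z.re ∧ 0 < z.im}

/-- left-right pairs -/
def IsLeftRightPair (K : Subfield ℂ) (L R : Mat) : Prop :=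
  L ∈ SL2N0 ∧ R ∈ SL2N0 ∧ L ≠ 1 ∧ R ≠ 1 ∧ Disjoint (act L '' D0 K) (act R '' D0 K)

/-- `IsChild K L R z w`: there is an edge `z → w` of `F(L, R)`, that is, `w = L(z)` or `w = R(z)` -/
def IsChild (K : Subfield ℂ) (L R : Mat) (z w : D0 K) : Prop :=
  (w : ℂ) = act L z ∨ (w : ℂ) = act R z

/-- the undirected graph underlying `F(L, R)` -/
def forest (K : Subfield ℂ) (L R : Mat) : SimpleGraph (D0 K) :=
  SimpleGraph.fromRel (IsChild K L R)

/-- orphans: vertices without parent -/
def IsOrphan (K : Subfield ℂ) (L R : Mat) (w : D0 K) : Prop := ∀ z : D0 K, ¬ IsChild K L R z w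

/-- some connected component of `F(L, R)` contains no orphan -/
def HasRootless (K : Subfield ℂ) (L R : Mat) : Prop :=
  ∃ C : (forest K L R).ConnectedComponent, ∀ v ∈ C.supp, ¬ IsOrphan K L R v

/-- one step of the matrix product -/
theorem step {a b c d p q r s : ℕ} (h1 : a * d = b * c + 1) (h2 : p * s = q * r + 1)
    (hne : ¬ (p = 1 ∧ q = 0 ∧ r = 0 ∧ s = 1)) :
    a + b + c + d + 1 ≤ (a * p + b * r) + (a * q + b * s) + (c * p + d * r) + (c * q + d * s) := by
  have ha : 1 ≤ a := by
    rcases Nat.eq_zero_or_pos a with h | h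
    · rw [h] at h1; omega
    · exact h
  have hd : 1 ≤ d := by
    rcases Nat.eq_zero_or_pos d with h | h
    · rw [h] at h1; omega
    · exact h
  have hp : 1 ≤ p := by
    rcases Nat.eq_zero_or_pos p with h | h
    · rw [h] at h2; omega
    · exact h
  have hs : 1 ≤ s := by
    rcases Nat.eq_zero_or_pos s with h | h
    · rw [h] at h2; omega
    · exact h
  have e : (a * p + b * r) + (a * q + b * s) + (c * p + d * r) + (c * q + d * s) =
      (a + c) * (p + q) + (b + d) * (r + s) := by ring
  rw [e]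
  have h3 : 2 ≤ p + q ∨ 2 ≤ r + s := by
    by_contra hcon
    push Not at hcon
    apply hne
    omega
  rcases h3 with h3 | h3
  · have i1 : (a + c) * 2 ≤ (a + c) * (p + q) := Nat.mul_le_mul_left _ h3
    have i2 : (b + d) * 1 ≤ (b + d) * (r + s) := Nat.mul_le_mul_left _ (by omega)
    omega
  · have i1 : (a + c) * 1 ≤ (a + c) * (p + q) := Nat.mul_le_mul_left _ (by omega)
    have i2 : (b + d) * 2 ≤ (b + d) * (r + s) := Nat.mul_le_mul_left _ h3
    omega

/-- the entries of a product of matrices having a given point in the image of the quadrant are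
bounded in terms of this point -/
theorem bound {a b c d : ℕ} (h1 : a * d = b * c + 1) {z w : ℂ} (hx : 0 < z.re) (hy : 0 < z.im)
    (hw : 0 < w.re) (h : z * (c * w + d) = a * w + b) :
    ((a + b + c + d : ℕ) : ℝ) ≤ 2 + z.re + 1 / z.im + z.re / z.im + z.re / z.im ^ 2 := by
  set x := z.re with hxd
  set y := z.im with hyd
  set u := w.re with hud
  set v := w.im with hvd
  have hre := congrArg Complex.re h
  have him := congrArg Complex.im h
  simp only [Complex.mul_re, Complex.mul_im, Complex.add_re, Complex.add_im, Complex.natCast_re,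
    Complex.natCast_im, zero_mul, sub_zero, add_zero] at hre him
  rw [← hxd, ← hyd, ← hud, ← hvd] at hre him
  have h1r : (a : ℝ) * d = b * c + 1 := by exact_mod_cast h1
  -- the main identity
  have key : ((a : ℝ) - c * x) * (d * x - b) - c * d * y ^ 2 =
      u * (((a : ℝ) - c * x) ^ 2 + (c * y) ^ 2) := by
    have e1 : u * ((a : ℝ) - c * x) + v * (c * y) = d * x - b := by linarith
    have e2 : v * ((a : ℝ) - c * x) - u * (c * y) = d * y := by linarith
    have e3 : (d : ℝ) * y * (c * y) = c * d * y ^ 2 := by ring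
    rw [← e3, ← e1, ← e2]
    ring
  have hnn : 0 ≤ u * (((a : ℝ) - c * x) ^ 2 + (c * y) ^ 2) := by positivity
  have hA : (c : ℝ) * d * y ^ 2 ≤ ((a : ℝ) - c * x) * (d * x - b) := by linarith
  have hb0 : (0 : ℝ) ≤ b := Nat.cast_nonneg b
  have hxy : 0 ≤ x / y := by positivity
  have hxy2 : 0 ≤ x / y ^ 2 := by positivity
  have h1y : 0 ≤ 1 / y := by positivity
  push_cast
  rcases Nat.eq_zero_or_pos c with hc | hc
  · -- c = 0
    subst hc
    have had : a * d = 1 := by simpa using h1
    have ha : a = 1 := Nat.eq_one_of_mul_eq_one_right had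
    have hd : d = 1 := Nat.eq_one_of_mul_eq_one_left had
    subst ha
    subst hd
    simp only [Nat.cast_zero, Nat.cast_one, zero_mul, sub_zero, one_mul] at hA ⊢
    linarith
  · have hd : 1 ≤ d := by
      rcases Nat.eq_zero_or_pos d with h | h
      · rw [h] at h1; omega
      · exact h
    have hcr : (1 : ℝ) ≤ c := by exact_mod_cast hc
    have hdr : (1 : ℝ) ≤ d := by exact_mod_cast hd
    have hcd : (1 : ℝ) ≤ c * d := by nlinarith
    -- both factors are positive
    have hpos : 0 < (c : ℝ) * d * y ^ 2 := by positivity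
    have hprod : 0 < ((a : ℝ) - c * x) * (d * x - b) := lt_of_lt_of_le hpos hA
    have hsum : (d : ℝ) * ((a : ℝ) - c * x) + c * (d * x - b) = 1 := by linarith
    have hf : 0 < (d : ℝ) * x - b := by
      rcases mul_pos_iff.1 hprod with h | h
      · exact h.2
      · exfalso
        have i1 : (d : ℝ) * ((a : ℝ) - c * x) < 0 := mul_neg_of_pos_of_neg (by linarith) h.1
        have i2 : (c : ℝ) * (d * x - b) < 0 := mul_neg_of_pos_of_neg (by linarith) h.2
        linarith
    -- the product c d y is at most one half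
    have hsq : (2 * (c * d * y)) ^ 2 ≤ (1 : ℝ) ^ 2 := by
      have i1 : (c : ℝ) * d * (c * d * y ^ 2) ≤ c * d * (((a : ℝ) - c * x) * (d * x - b)) :=
        mul_le_mul_of_nonneg_left hA (by linarith)
      have i2 : 4 * ((c : ℝ) * d * (((a : ℝ) - c * x) * (d * x - b))) ≤ 1 := by
        have e : (1 : ℝ) - 4 * ((c : ℝ) * d * (((a : ℝ) - c * x) * (d * x - b))) =
            ((d : ℝ) * ((a : ℝ) - c * x) - c * (d * x - b)) ^ 2 := by
          have e0 : (1 : ℝ) = ((d : ℝ) * ((a : ℝ) - c * x) + c * (d * x - b)) ^ 2 := by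
            rw [hsum]; ring
          rw [e0]
          ring
        have : 0 ≤ ((d : ℝ) * ((a : ℝ) - c * x) - c * (d * x - b)) ^ 2 := sq_nonneg _
        linarith
      have e2 : (2 * ((c : ℝ) * d * y)) ^ 2 = 4 * (c * d * (c * d * y ^ 2)) := by ring
      rw [e2]
      linarith
    have hcdy : (c : ℝ) * d * y ≤ 1 / 2 := by
      have := abs_le_of_sq_le_sq' hsq (by norm_num)
      linarith [this.2]
    have hcy : (c : ℝ) * y ≤ 1 / 2 := by nlinarith [mul_pos (by linarith : (0 : ℝ) < c) hy]
    have hdy : (d : ℝ) * y ≤ 1 / 2 := by nlinarith [mul_pos (by linarith : (0 : ℝ) < d) hy]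
    have hcb : (c : ℝ) ≤ 1 / y / 2 := by
      rw [le_div_iff₀ (by norm_num : (0 : ℝ) < 2), le_div_iff₀ hy]
      linarith
    have hdb : (d : ℝ) ≤ 1 / y / 2 := by
      rw [le_div_iff₀ (by norm_num : (0 : ℝ) < 2), le_div_iff₀ hy]
      linarith
    have hbb : (b : ℝ) ≤ x / y / 2 := by
      have i1 : (d : ℝ) * x ≤ 1 / y / 2 * x := mul_le_mul_of_nonneg_right hdb hx.le
      have e : 1 / y / 2 * x = x / y / 2 := by ring
      linarith
    have hab : (a : ℝ) ≤ 1 + x / y ^ 2 / 4 := by
      have i1 : (a : ℝ) ≤ a * d := by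
        have : (0 : ℝ) ≤ a := Nat.cast_nonneg a
        nlinarith
      have i2 : (b : ℝ) * c ≤ x / y / 2 * (1 / y / 2) :=
        mul_le_mul hbb hcb (by linarith) (by positivity)
      have e : x / y / 2 * (1 / y / 2) = x / y ^ 2 / 4 := by
        field_simp
        ring
      linarith
    linarith

/-- there is no infinite sequence of ancestors -/
theorem no_chain (w : ℕ → Mat) (z : ℕ → ℂ) (hw : ∀ n, w n ∈ SL2N0 ∧ w n ≠ 1)
    (hz : ∀ n, 0 < (z n).re ∧ 0 < (z n).im) (h : ∀ n, z n = act (w n) (z (n + 1))) : False := by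
  have main : ∀ n : ℕ, ∃ a b c d : ℕ, a * d = b * c + 1 ∧ z 0 * (c * z n + d) = a * z n + b ∧
      n + 2 ≤ a + b + c + d := by
    intro n
    induction n with
    | zero => exact ⟨1, 0, 0, 1, by norm_num, by simp, by norm_num⟩
    | succ n ih =>
      obtain ⟨a, b, c, d, h1, h2, h3⟩ := ih
      obtain ⟨p, hp⟩ : ∃ p, p = w n 0 0 := ⟨_, rfl⟩
      obtain ⟨q, hq⟩ : ∃ q, q = w n 0 1 := ⟨_, rfl⟩
      obtain ⟨r, hr⟩ : ∃ r, r = w n 1 0 := ⟨_, rfl⟩
      obtain ⟨s, hs⟩ : ∃ s, s = w n 1 1 := ⟨_, rfl⟩
      have hdet : p * s = q * r + 1 := by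
        rw [hp, hq, hr, hs]
        exact (hw n).1
      have hne : ¬ (p = 1 ∧ q = 0 ∧ r = 0 ∧ s = 1) := by
        rintro ⟨e1, e2, e3, e4⟩
        apply (hw n).2
        ext i j
        fin_cases i <;> fin_cases j
        · simpa [hp] using e1
        · simpa [hq] using e2
        · simpa [hr] using e3
        · simpa [hs] using e4
      have hden : (r : ℂ) * z (n + 1) + s ≠ 0 := by
        intro h0
        have h0' := congrArg Complex.re h0
        simp only [Complex.add_re, Complex.mul_re, Complex.natCast_re, Complex.natCast_im, zero_mul,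
          sub_zero, Complex.zero_re] at h0'
        have hs1 : 1 ≤ s := by
          rcases Nat.eq_zero_or_pos s with h | h
          · rw [h] at hdet; omega
          · exact h
        have hs2 : (1 : ℝ) ≤ s := by exact_mod_cast hs1
        have hr2 : (0 : ℝ) ≤ r := Nat.cast_nonneg r
        have := mul_nonneg hr2 (hz (n + 1)).1.le
        linarith
      have hact : z n * ((r : ℂ) * z (n + 1) + s) = p * z (n + 1) + q := by
        have := h n
        unfold act at this
        rw [← hp, ← hq, ← hr, ← hs] at this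
        rw [this, div_mul_cancel₀ _ hden]
      refine ⟨a * p + b * r, a * q + b * s, c * p + d * r, c * q + d * s, ?_, ?_, ?_⟩
      · zify
        have h1z : (a : ℤ) * d = b * c + 1 := by exact_mod_cast h1
        have h2z : (p : ℤ) * s = q * r + 1 := by exact_mod_cast hdet
        linear_combination ((p : ℤ) * s - q * r) * h1z + h2z
      · push_cast
        linear_combination ((r : ℂ) * z (n + 1) + s) * h2 +
          ((a : ℂ) - z 0 * c) * hact
      · have := step h1 hdet hne
        omega
  obtain ⟨N, hN⟩ := exists_nat_gt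
    (2 + (z 0).re + 1 / (z 0).im + (z 0).re / (z 0).im + (z 0).re / (z 0).im ^ 2)
  obtain ⟨a, b, c, d, h1, h2, h3⟩ := main N
  have hb := bound h1 (hz 0).1 (hz 0).2 (hz N).1 h2
  have h3r : ((N : ℝ) + 2) ≤ ((a + b + c + d : ℕ) : ℝ) := by exact_mod_cast h3
  linarith

/-- **Theorem.** The set of left-right pairs `(L, R)` for which the forest `F(L, R)` has a rootless
component is empty. -/
theorem result (K : Subfield ℂ) (hK : ¬ ∀ z ∈ K, z.im = 0) :
    {p : Mat × Mat | IsLeftRightPair K p.1 p.2 ∧ HasRootless K p.1 p.2} = ∅ := by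
  rw [Set.eq_empty_iff_forall_notMem]
  rintro ⟨L, R⟩ ⟨⟨hL, hR, hL1, hR1, -⟩, C, hC⟩
  obtain ⟨v, hv⟩ := C.nonempty_supp
  -- parents inside the component
  have par : ∀ x : {x : D0 K // x ∈ C.supp}, ∃ y : {x : D0 K // x ∈ C.supp},
      IsChild K L R y.1 x.1 := by
    intro x
    have h1 := hC x.1 x.2
    unfold IsOrphan at h1
    push Not at h1
    obtain ⟨y, hy⟩ := h1
    refine ⟨⟨y, ?_⟩, hy⟩
    by_cases hxy : y = x.1
    · rw [hxy]; exact x.2
    · have hadj : (forest K L R).Adj y x.1 := by
        unfold forest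
        rw [SimpleGraph.fromRel_adj]
        exact ⟨hxy, Or.inl hy⟩
      have := x.2
      rw [SimpleGraph.ConnectedComponent.mem_supp_iff] at this ⊢
      rw [← this]
      exact SimpleGraph.ConnectedComponent.sound hadj.reachable
  choose f hf using par
  let g : ℕ → {x : D0 K // x ∈ C.supp} := fun n => f^[n] ⟨v, hv⟩
  have hg : ∀ n, IsChild K L R (g (n + 1)).1 (g n).1 := by
    intro n
    have : g (n + 1) = f (g n) := Function.iterate_succ_apply' f n _
    rw [this]
    exact hf (g n)
  have hsel : ∀ n, ∃ T : Mat, (T ∈ SL2N0 ∧ T ≠ 1) ∧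
      ((g n).1 : ℂ) = act T ((g (n + 1)).1 : ℂ) := by
    intro n
    rcases hg n with h | h
    · exact ⟨L, ⟨hL, hL1⟩, h⟩
    · exact ⟨R, ⟨hR, hR1⟩, h⟩
  choose w hw hw2 using hsel
  exact no_chain w (fun n => ((g n).1 : ℂ)) hw (fun n => (g n).1.2.2) hw2

end Pool.Agent.Results.MP_b00f03_nt.NoRootless
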